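import Pool.Agent.Y243.MRank.Main

/-!
# The maximal rank of cubic tensors over algebraically closed fields and over the reals
-/

set_option autoImplicit false

universe u

namespace Pool.Agent.Results.MP_9e4661_ag.OverAllClosedFields

open Pool.Agent.TH140.MR

/-- The maximal rank of `n × n × n` tensors is `n² / 3 + O(n)` over every algebraically closed
field of characteristic zero and over the real numbers; the lower bound `n² / 3` holds over every
infinite field. -/
theorem result :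
    (∀ (K : Type u) [Field K] [IsAlgClosed K] [CharZero K] (n : ℕ),
      (n : ℝ) ^ 2 / 3 ≤ (maxRank K (fun _ : Fin 3 => n) : ℝ) ∧
      maxRank K (fun _ : Fin 3 => n) ≤ 3 * ((n + 2) / 3) ^ 2 + 9 * ((n + 2) / 3)) ∧
    (∀ n : ℕ, (n : ℝ) ^ 2 / 3 ≤ (maxRank ℝ (fun _ : Fin 3 => n) : ℝ) ∧
      maxRank ℝ (fun _ : Fin 3 => n) ≤ 3 * ((n + 2) / 3) ^ 2 + 10 * ((n + 2) / 3)) ∧
    (∀ (K : Type u) [Field K] [Infinite K] (n : ℕ),
      (n : ℝ) ^ 2 / 3 ≤ (maxRank K (fun _ : Fin 3 => n) : ℝ)) :=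
  ⟨fun K _ _ _ n => ⟨@Pool.Agent.Y243.MRank.cubic_lower_infinite K _ inferInstance n,
      Pool.Agent.Y243.MRank.cube_upper K n⟩,
    fun n => ⟨cubic_lower ℝ n, maxRank_cube_real ℝ n ((n + 2) / 3) (by omega)⟩,
    fun K _ _ n => Pool.Agent.Y243.MRank.cubic_lower_infinite K n⟩

end Pool.Agent.Results.MP_9e4661_ag.OverAllClosedFields
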